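import Pool.Agent.Helper47.Gom3.XDefs
import Pool.Agent.Helper47.Gom2.ItemCheck

set_option autoImplicit false

namespace Pool.Agent.Gomoku

/-! # Interface between the fast evaluator and the semantics -/

/-- window mask number `l` of the packed masks -/
def laneX (A l : ℕ) : ℕ := Nat.land (Nat.shiftRight A (132 + 4096 * l)) XM

/-- the state `s` is represented by `b F A` -/
structure Rep (off : Cell) (s : St) (b F A : ℕ) : Prop where
  inv : Inv off s
  b : b = Nat.lor XHI s.b
  F : F = Nat.lor (Nat.lor s.b s.w) XNIM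
  lv : s.lv = laneX A 0
  a1 : s.a1 = laneX A 1
  a2 : s.a2 = laneX A 2
  a3 : s.a3 = laneX A 3
  a4 : s.a4 = laneX A 4
  n2 : Sub s.a2 s.a1
  n3 : Sub s.a3 s.a2

/-- forced fours lead from `s` to `s'`; `C` contains the window masks after the black moves -/
inductive Fours : St → St → ℕ → Prop
  | nil (s : St) (C : ℕ) : Fours s s C
  | cons (s s' : St) (C c t k : ℕ) (hc : c < 1024) (ht : t < 1024) (hfc : isFree s c = true)
      (hft : isFree (s.addB c) t = true)
      (h5 : fiveOK (Nat.lor (s.addB c).b (Nat.shiftLeft 1 t)) k = true)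
      (h4 : (s.addB c).a4 = 0)
      (h1 : Sub (s.addB c).a1 (laneX C 1)) (h2 : Sub (s.addB c).a2 (laneX C 2))
      (h3 : Sub (s.addB c).a3 (laneX C 3)) (hn : Sub (s.addB c).a3 (s.addB c).a2)
      (h : Fours ((s.addB c).addW t) s' C) : Fours s s' C

/-- a final five at `c` -/
def Five (s : St) (c : ℕ) : Prop :=
  c < 1024 ∧ isFree s c = true ∧ ∃ k, fiveOK (Nat.lor s.b (Nat.shiftLeft 1 c)) k = true

/-- Black can make an open four at `c`, with the completing cells `t` and `u` -/
def OpenF (s : St) (c t u : ℕ) : Prop :=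
  c < 1024 ∧ t < 1024 ∧ u < 1024 ∧ isFree s c = true ∧ isFree s t = true ∧ isFree s u = true ∧
  c ≠ t ∧ c ≠ u ∧ t ≠ u ∧
  (∃ k, fiveOK (Nat.lor (Nat.lor s.b (Nat.shiftLeft 1 c)) (Nat.shiftLeft 1 t)) k = true) ∧
  (∃ k, fiveOK (Nat.lor (Nat.lor s.b (Nat.shiftLeft 1 c)) (Nat.shiftLeft 1 u)) k = true)

/-- cap 1 windows of the accumulator -/
def gC (G : ℕ) : ℕ := Nat.land (Nat.shiftRight G 132) XM
/-- windows whose cells belong to the zone -/
def gE (G : ℕ) : ℕ := Nat.land (Nat.shiftRight G 4228) XM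
/-- the zone -/
def xZone (K G : ℕ) : ℕ := Nat.lor (Nat.xor K XNIM) (xCells (gE G))

/-- `s` is won at level 2 with the accumulators `K G` -/
def V2 (off : Cell) (s : St) (K G : ℕ) : Prop := Valid2 (dataV off true s (xZone K G) (gC G))

/-- reading a table -/
noncomputable def XTb.get (t : XTb) : ℕ → Item :=
  XTb.rec (motive := fun _ => ℕ → Item) (fun B W K C1 mx my _ _ _ _ => ⟨B, W, K, C1, 0, 2, mx, my⟩)
    (fun _ _ gl gr i => Bool.rec (motive := fun _ => Item) (gr (Nat.shiftRight i 1))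
      (gl (Nat.shiftRight i 1)) (Nat.beq (Nat.mod i 2) 0)) t

/-- two tables: even numbers are items of `t`, odd numbers those of `c` -/
noncomputable def getXC (t : XTb) (c : CTb) (i : ℕ) : Item :=
  Bool.rec (motive := fun _ => Item) (c.get (Nat.shiftRight i 1)) (t.get (Nat.shiftRight i 1))
    (Nat.beq (Nat.mod i 2) 0)

end Pool.Agent.Gomoku
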